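import Pool.Agent.K1H62.MC.Plan

set_option autoImplicit false

/-! (AFD) decay of the metric. -/

namespace Pool.Agent.K1H87.MC

open Pool.Agent.K1H62.MC MeasureTheory Filter Topology
open scoped ENNReal ContDiff

noncomputable section

lemma pd_scale (i : Fin 3) (b : ℝ) {G : E → ℝ} {y : E} (hG : DifferentiableAt ℝ G (b • y)) :
    pd i (fun z => G (b • z)) y = b * pd i G (b • y) := by
  unfold pd
  have h1 : HasFDerivAt (fun z : E => b • z) (b • ContinuousLinearMap.id ℝ E) y :=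
    (hasFDerivAt_id y).const_smul b
  have h2 := (hG.hasFDerivAt.comp y h1).fderiv
  have e : (G ∘ fun z : E => b • z) = fun z => G (b • z) := rfl
  rw [e] at h2
  rw [h2]; simp

lemma aa_out {F : E → ℝ} {x : E} (hx : x ∉ tsupport F) (i : Fin 3) : aa F i x = 0 := by
  have h0 : pd 0 (pd 0 F) x = 0 := pd_zero_of_notMem 0 fun h => hx (pd_tsupport 0 h)
  have h1 : pd 1 (pd 1 F) x = 0 := pd_zero_of_notMem 1 fun h => hx (pd_tsupport 1 h)
  unfold aa
  rw [h0, h1]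
  fin_cases i <;> simp

lemma gm_out {F : E → ℝ} {K t : ℝ} {x : E} (hx : x ∉ tsupport F) (hp : 0 < ph K t x) (i j : Fin 3) :
    gm F K t x i j = if i = j then ph K t x ^ 4 else 0 := by
  unfold gm
  rw [Matrix.diagonal_apply]
  split_ifs with h
  · unfold al
    rw [aa_out hx]
    have h1 : 2 * (t * 0 + 2 * Real.log (ph K t x)) = ((4 : ℕ) : ℝ) * Real.log (ph K t x) := by
      push_cast; ring
    rw [h1, Real.exp_nat_mul, Real.exp_log hp]
  · rfl

/-- the diagonal entry -/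
def GG (K t : ℝ) (x : E) : ℝ := ((1 - K * t ^ 2) ^ 4)⁻¹ * ph K t x ^ 4

/-- the derivative, up to a constant -/
def WW (K t : ℝ) (k : Fin 3) (x : E) : ℝ := ph K t x ^ 3 * (u x * pd k u x)

section
variable {K t : ℝ}

lemma ph_smooth (hu : ContDiffOn ℝ ∞ u {x | 2 < s x}) : ContDiffOn ℝ ∞ (ph K t) {x | 2 < s x} := by
  unfold ph
  exact contDiffOn_const.sub (contDiffOn_const.mul (hu.pow 2))

lemma GG_smooth (hu : ContDiffOn ℝ ∞ u {x | 2 < s x}) : ContDiffOn ℝ ∞ (GG K t) {x | 2 < s x} := by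
  unfold GG
  exact contDiffOn_const.mul ((ph_smooth hu).pow 4)

lemma WW_smooth (hu : ContDiffOn ℝ ∞ u {x | 2 < s x}) (k : Fin 3) :
    ContDiffOn ℝ ∞ (WW K t k) {x | 2 < s x} := by
  unfold WW
  exact ((ph_smooth hu).pow 3).mul (hu.mul (pd_smooth (open_s 2) hu k))

lemma pd_ph (hu : ContDiffOn ℝ ∞ u {x | 2 < s x}) (k : Fin 3) {x : E} (hx : 2 < s x) :
    pd k (ph K t) x = -2 * (K * t ^ 2) * (u x * pd k u x) := by
  have du : DifferentiableAt ℝ u x := diff_of (open_s 2) hu hx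
  have h1 : pd k (ph K t) x = pd k (fun y => 1 - K * t ^ 2 * u y ^ 2) x := rfl
  have du2 : DifferentiableAt ℝ (fun y => u y ^ 2) x := du.pow 2
  have du3 : DifferentiableAt ℝ (fun y => K * t ^ 2 * u y ^ 2) x := du2.const_mul _
  rw [h1, pd_sub k (differentiableAt_const _) du3, pd_const,
    pd_const_mul k _ du2, pd_pow k 2 du]
  push_cast
  ring

lemma pd_GG (hu : ContDiffOn ℝ ∞ u {x | 2 < s x}) (k : Fin 3) {x : E} (hx : 2 < s x) :
    pd k (GG K t) x = (-8 * (K * t ^ 2) * ((1 - K * t ^ 2) ^ 4)⁻¹) * WW K t k x := by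
  have dp : DifferentiableAt ℝ (ph K t) x := diff_of (open_s 2) (ph_smooth hu) hx
  have h1 : pd k (GG K t) x = pd k (fun y => ((1 - K * t ^ 2) ^ 4)⁻¹ * ph K t y ^ 4) x := rfl
  have dp4 : DifferentiableAt ℝ (fun y => ph K t y ^ 4) x := dp.pow 4
  rw [h1, pd_const_mul k _ dp4, pd_pow k 4 dp, pd_ph hu k hx]
  unfold WW
  push_cast
  ring

lemma pd_WW (hu : ContDiffOn ℝ ∞ u {x | 2 < s x}) (k l : Fin 3) {x : E} (hx : 2 < s x) :
    pd l (WW K t k) x = ph K t x ^ 3 * (u x * pd l (pd k u) x + pd l u x * pd k u x)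
      + 3 * ph K t x ^ 2 * (-2 * (K * t ^ 2) * (u x * pd l u x)) * (u x * pd k u x) := by
  have du : DifferentiableAt ℝ u x := diff_of (open_s 2) hu hx
  have dp : DifferentiableAt ℝ (ph K t) x := diff_of (open_s 2) (ph_smooth hu) hx
  have dk : DifferentiableAt ℝ (pd k u) x := diff_of (open_s 2) (pd_smooth (open_s 2) hu k) hx
  have h1 : pd l (WW K t k) x = pd l (fun y => ph K t y ^ 3 * (u y * pd k u y)) x := rfl
  have dp3 : DifferentiableAt ℝ (fun y => ph K t y ^ 3) x := dp.pow 3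
  have dq : DifferentiableAt ℝ (fun y => u y * pd k u y) x := du.mul dk
  rw [h1, pd_mul l dp3 dq, pd_mul l du dk, pd_pow l 3 dp, pd_ph hu l hx]
  push_cast
  ring

lemma pd_pd_GG (hu : ContDiffOn ℝ ∞ u {x | 2 < s x}) (k l : Fin 3) {x : E} (hx : 2 < s x) :
    pd l (pd k (GG K t)) x = (-8 * (K * t ^ 2) * ((1 - K * t ^ 2) ^ 4)⁻¹) *
      (ph K t x ^ 3 * (u x * pd l (pd k u) x + pd l u x * pd k u x)
      + 3 * ph K t x ^ 2 * (-2 * (K * t ^ 2) * (u x * pd l u x)) * (u x * pd k u x)) := by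
  have dw : DifferentiableAt ℝ (WW K t k) x := diff_of (open_s 2) (WW_smooth hu k) hx
  rw [pd_congr_set (open_s 2) (fun y hy => pd_GG hu k hy) hx l, pd_const_mul l _ dw, pd_WW hu k l hx]

/-- bounds at one point -/
lemma bounds (hK : 0 < K) (ht : 0 < t) (hKt : K * t ^ 2 < 1 / 2)
    (hu : ContDiffOn ℝ ∞ u {x | 2 < s x}) {x : E} (hx : 2 < s x) (hu1 : |u x| < 1)
    {C : ℝ} (hC : 0 < C) (h0 : |1 - u x| ≤ C / (1 + ‖x‖)) (h1 : ∀ i, |pd i u x| ≤ C / (1 + ‖x‖) ^ 2)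
    (h2 : ∀ i j, |pd j (pd i u) x| ≤ C / (1 + ‖x‖) ^ 3) :
    |GG K t x - 1| ≤ 30 * (C / (1 + ‖x‖)) ∧ (∀ k, |pd k (GG K t) x| ≤ 64 * (C / (1 + ‖x‖) ^ 2)) ∧
    ∀ k l, |pd l (pd k (GG K t)) x| ≤ 64 * ((C + 4 * C ^ 2) / (1 + ‖x‖) ^ 3) := by
  set κ : ℝ := K * t ^ 2 with hκ
  have hκ0 : 0 < κ := by positivity
  set a : ℝ := 1 - κ with ha
  have ha1 : 1 / 2 < a := by rw [ha]; linarith
  have ha2 : a < 1 := by rw [ha]; linarith
  have hu2 : u x ^ 2 ≤ 1 := by
    rw [← sq_abs]; nlinarith [abs_nonneg (u x)]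
  have hu3 : 0 ≤ u x ^ 2 := sq_nonneg _
  set p : ℝ := ph K t x with hp
  have hpe : p = 1 - κ * u x ^ 2 := by rw [hp, hκ]; rfl
  have hp1 : p ≤ 1 := by rw [hpe]; nlinarith
  have hp0 : a ≤ p := by rw [hpe, ha]; nlinarith
  have hp00 : 0 < p := by linarith
  have hx1 : 1 ≤ 1 + ‖x‖ := by linarith [norm_nonneg x]
  have ha4 : (a ^ 4)⁻¹ ≤ 16 := by
    have h3 : (1 / 2 : ℝ) ^ 4 ≤ a ^ 4 := pow_le_pow_left₀ (by norm_num) ha1.le 4
    calc (a ^ 4)⁻¹ ≤ ((1 / 2 : ℝ) ^ 4)⁻¹ := inv_anti₀ (by positivity) h3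
      _ = 16 := by norm_num
  have ha40 : 0 < (a ^ 4)⁻¹ := by positivity
  have hA : |(-8 * κ * (a ^ 4)⁻¹)| ≤ 64 := by
    rw [abs_le]
    constructor <;> nlinarith
  have hp3 : |p ^ 3| ≤ 1 := by
    rw [abs_of_nonneg (by positivity)]; exact pow_le_one₀ hp00.le hp1
  have hp2 : |p ^ 2| ≤ 1 := by
    rw [abs_of_nonneg (by positivity)]; exact pow_le_one₀ hp00.le hp1
  refine ⟨?_, ?_, ?_⟩
  · have hG : GG K t x = (p / a) ^ 4 := by
      unfold GG
      rw [← hp, div_pow]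
      ring
    set h : ℝ := p / a with hh
    have hh1 : 1 ≤ h := by rw [hh, le_div_iff₀ (by linarith)]; linarith
    have hh2 : h ≤ 2 := by rw [hh, div_le_iff₀ (by linarith)]; linarith
    have hha : (h - 1) * a = κ * (1 - u x ^ 2) := by
      rw [hh]; field_simp; rw [hpe, ha]; ring
    have hd : 1 - u x ^ 2 ≤ 2 * |1 - u x| := by
      have h5 : 1 - u x ^ 2 = (1 - u x) * (1 + u x) := by ring
      rw [h5]
      have h6 := abs_lt.1 hu1
      have h7 : 0 < 1 - u x := by linarith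
      rw [abs_of_pos h7]
      nlinarith
    have hh3 : h - 1 ≤ 2 * |1 - u x| := by
      have h8 : (h - 1) * a ≤ 2 * |1 - u x| * a := by
        rw [hha]
        nlinarith [abs_nonneg (1 - u x)]
      exact le_of_mul_le_mul_right h8 (by linarith)
    rw [hG]
    have h9 : h ^ 4 - 1 = (h - 1) * (h ^ 3 + h ^ 2 + h + 1) := by ring
    have h10 : 0 ≤ h - 1 := by linarith
    have h11 : h ^ 3 + h ^ 2 + h + 1 ≤ 15 := by
      have := pow_le_pow_left₀ (by linarith : (0 : ℝ) ≤ h) hh2 3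
      have := pow_le_pow_left₀ (by linarith : (0 : ℝ) ≤ h) hh2 2
      norm_num at *
      linarith
    have h12 : 0 ≤ h ^ 3 + h ^ 2 + h + 1 := by positivity
    rw [h9, abs_of_nonneg (mul_nonneg h10 h12)]
    calc (h - 1) * (h ^ 3 + h ^ 2 + h + 1) ≤ (2 * |1 - u x|) * 15 :=
          mul_le_mul hh3 h11 h12 (by positivity)
      _ ≤ 30 * (C / (1 + ‖x‖)) := by linarith
  · intro k
    rw [pd_GG hu k hx, abs_mul]
    have hW : |WW K t k x| ≤ 1 * (1 * (C / (1 + ‖x‖) ^ 2)) := by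
      unfold WW
      rw [abs_mul, abs_mul, ← hp]
      gcongr
      exact h1 k
    calc _ ≤ 64 * (1 * (1 * (C / (1 + ‖x‖) ^ 2))) := mul_le_mul hA hW (abs_nonneg _) (by norm_num)
      _ = _ := by ring
  · intro k l
    rw [pd_pd_GG hu k l hx, abs_mul]
    have hmain : |(p ^ 3 * (u x * pd l (pd k u) x + pd l u x * pd k u x)
      + 3 * p ^ 2 * (-2 * κ * (u x * pd l u x)) * (u x * pd k u x))| ≤
        (C + 4 * C ^ 2) / (1 + ‖x‖) ^ 3 := by
      have e1 := h1 k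
      have e2 := h1 l
      have e3 := h2 k l
      set D1 := C / (1 + ‖x‖) ^ 2 with hD1
      have hD10 : 0 ≤ D1 := by positivity
      have t1 : |p ^ 3 * (u x * pd l (pd k u) x + pd l u x * pd k u x)|
          ≤ 1 * (1 * (C / (1 + ‖x‖) ^ 3) + D1 * D1) := by
        rw [abs_mul]
        gcongr
        refine (abs_add_le _ _).trans ?_
        rw [abs_mul, abs_mul]
        gcongr
      have t2 : |3 * p ^ 2 * (-2 * κ * (u x * pd l u x)) * (u x * pd k u x)|
          ≤ 3 * 1 * (1 * (1 * D1)) * (1 * D1) := by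
        rw [abs_mul, abs_mul, abs_mul, abs_mul (-2 * κ), abs_mul (u x), abs_mul (u x)]
        have hk2 : |(-2 * κ)| ≤ 1 := by rw [abs_le]; constructor <;> linarith
        have h3 : |(3 : ℝ)| = 3 := by norm_num
        rw [h3]
        gcongr
      have hD : D1 * D1 ≤ C ^ 2 / (1 + ‖x‖) ^ 3 := by
        rw [hD1, div_mul_div_comm, ← sq, ← pow_add]
        apply div_le_div_of_nonneg_left (by positivity) (by positivity)
        exact pow_le_pow_right₀ hx1 (by norm_num)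
      calc _ ≤ 1 * (1 * (C / (1 + ‖x‖) ^ 3) + D1 * D1) + 3 * 1 * (1 * (1 * D1)) * (1 * D1) :=
            (abs_add_le _ _).trans (add_le_add t1 t2)
        _ = C / (1 + ‖x‖) ^ 3 + 4 * (D1 * D1) := by ring
        _ ≤ C / (1 + ‖x‖) ^ 3 + 4 * (C ^ 2 / (1 + ‖x‖) ^ 3) := by gcongr
        _ = _ := by ring
    gcongr

end

theorem afd : S_AFD := by
  intro hgeo hpot hdec F hF K t hK ht hKt
  obtain ⟨-, hs2, -, -, -, -, hint, -, -, -⟩ := hgeo
  obtain ⟨hu, -, -, -, -, hu1⟩ := hpot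
  obtain ⟨⟨C, hC, hd0, hd1, hd2⟩, -⟩ := hdec
  set a : ℝ := 1 - K * t ^ 2 with ha
  have hκ0 : 0 < K * t ^ 2 := by positivity
  have ha1 : 1 / 2 < a := by rw [ha]; linarith
  have ha2 : a < 1 := by rw [ha]; linarith
  set c : ℝ := a ^ 2 with hc
  have hc0 : 0 < c := by positivity
  have hc1 : c ≤ 1 := by rw [hc]; nlinarith
  have hc2 : 1 / 4 ≤ c := by rw [hc]; nlinarith
  have hci1 : 1 ≤ c⁻¹ := (one_le_inv₀ hc0).2 hc1
  have hci4 : c⁻¹ ≤ 4 := by
    rw [inv_le_comm₀ hc0 (by norm_num)]; linarith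
  obtain ⟨R, hR⟩ := hF.2.1.isBounded.subset_closedBall (0 : E)
  set r' : ℝ := max R 2 with hr'
  have hnorm : ∀ y : E, ‖y‖ ≤ ‖c⁻¹ • y‖ := by
    intro y
    rw [norm_smul, Real.norm_of_nonneg (by positivity)]
    nlinarith [norm_nonneg y]
  have hout : ∀ y : E, r' < ‖y‖ → c⁻¹ • y ∉ tsupport F := by
    intro y hy h
    have h1 := hR h
    rw [mem_closedBall_zero_iff] at h1
    have h2 := hnorm y
    have h3 : R ≤ r' := le_max_left _ _
    linarith
  have hs4 : ∀ y : E, r' < ‖y‖ → 4 < s (c⁻¹ • y) := by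
    intro y hy
    have h1 := hs2 (c⁻¹ • y)
    have h2 := hnorm y
    have h3 : 2 ≤ r' := le_max_right _ _
    linarith
  have hopen : IsOpen {y : E | r' < ‖y‖} := isOpen_lt continuous_const continuous_norm
  have hEq : ∀ i j, Set.EqOn (fun z => resc c (gm F K t) z i j)
      (if i = j then (fun z => GG K t (c⁻¹ • z)) else fun _ => 0) {y : E | r' < ‖y‖} := by
    intro i j z hz
    have hz1 := hout z hz
    have hz2 := hs4 z hz
    have hp : 0 < ph K t (c⁻¹ • z) := by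
      have h1 := hu1 (c⁻¹ • z) (by linarith)
      have h2 : u (c⁻¹ • z) ^ 2 ≤ 1 := by
        rw [← sq_abs]; nlinarith [abs_nonneg (u (c⁻¹ • z))]
      unfold ph
      nlinarith
    simp only [resc, Matrix.smul_apply, smul_eq_mul]
    rw [gm_out hz1 hp]
    split_ifs with h
    · unfold GG
      rw [← ha, hc]
      congr 1
      ring
    · simp
  have hP : ∀ y : E, r' + 1 ≤ ‖y‖ →
      |GG K t (c⁻¹ • y) - 1| ≤ 30 * (C / ‖y‖) ∧
      (∀ k, |pd k (fun z => GG K t (c⁻¹ • z)) y| ≤ 256 * (C / ‖y‖ ^ 2)) ∧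
      ∀ k l, |pd l (pd k (fun z => GG K t (c⁻¹ • z))) y| ≤ 1024 * ((C + 4 * C ^ 2) / ‖y‖ ^ 3) := by
    intro y hy
    have hr2 : 2 ≤ r' := le_max_right _ _
    have hy0 : 0 < ‖y‖ := by linarith
    have hyr : r' < ‖y‖ := by linarith
    have hx4 := hs4 y hyr
    have hx2 : 2 < s (c⁻¹ • y) := by linarith
    have hxM : c⁻¹ • y ∈ MM := hx4.le
    obtain ⟨b0, b1, b2⟩ := bounds hK ht hKt hu hx2 (hu1 _ (by linarith)) hC (hd0 _ hxM) (hd1 _ hxM)
      (hd2 _ hxM)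
    have hle : ‖y‖ ≤ 1 + ‖c⁻¹ • y‖ := by linarith [hnorm y]
    have hG := GG_smooth (K := K) (t := t) hu
    have hV : IsOpen {z : E | 2 < s (c⁻¹ • z)} :=
      isOpen_lt continuous_const (s_cont.comp (continuous_const_smul c⁻¹))
    have hfirst : ∀ k, ∀ z : E, 2 < s (c⁻¹ • z) →
        pd k (fun z => GG K t (c⁻¹ • z)) z = c⁻¹ * pd k (GG K t) (c⁻¹ • z) := by
      intro k z hz
      exact pd_scale k c⁻¹ (diff_of (open_s 2) hG hz)
    refine ⟨b0.trans ?_, ?_, ?_⟩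
    · gcongr
    · intro k
      rw [hfirst k y hx2, abs_mul, abs_of_pos (by positivity)]
      calc c⁻¹ * |pd k (GG K t) (c⁻¹ • y)| ≤ 4 * (64 * (C / (1 + ‖c⁻¹ • y‖) ^ 2)) := by
            gcongr
            exact b1 k
        _ ≤ 4 * (64 * (C / ‖y‖ ^ 2)) := by gcongr
        _ = _ := by ring
    · intro k l
      have hk : DifferentiableAt ℝ (pd k (GG K t)) (c⁻¹ • y) :=
        diff_of (open_s 2) (pd_smooth (open_s 2) hG k) hx2
      have hk' : DifferentiableAt ℝ (fun z : E => pd k (GG K t) (c⁻¹ • z)) y :=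
        hk.comp y ((differentiableAt_id).const_smul c⁻¹)
      rw [pd_congr_set hV (fun z hz => hfirst k z hz) hx2 l, pd_const_mul l _ hk',
        pd_scale l c⁻¹ hk, abs_mul, abs_mul, abs_of_pos (by positivity : 0 < c⁻¹)]
      calc c⁻¹ * (c⁻¹ * |pd l (pd k (GG K t)) (c⁻¹ • y)|)
          ≤ 4 * (4 * (64 * ((C + 4 * C ^ 2) / (1 + ‖c⁻¹ • y‖) ^ 3))) := by
            gcongr
            exact b2 k l
        _ ≤ 4 * (4 * (64 * ((C + 4 * C ^ 2) / ‖y‖ ^ 3))) := by gcongr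
        _ = _ := by ring
  refine ⟨c, 1024 * (C + 4 * C ^ 2), r' + 1, hc0, ?_, ?_, ?_⟩
  · have : 2 ≤ r' := le_max_right _ _
    linarith
  · intro y hy
    rw [hint]
    exact hs4 y (by linarith)
  · intro y hy i j
    have hr2 : 2 ≤ r' := le_max_right _ _
    have hy0 : 0 < ‖y‖ := by linarith
    have hyr : r' < ‖y‖ := by linarith
    have e1 : ‖y‖ ^ (-1 : ℝ) = 1 / ‖y‖ := by rw [Real.rpow_neg_one, one_div]
    have e2 : ‖y‖ ^ (-1 - 1 : ℝ) = 1 / ‖y‖ ^ 2 := by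
      rw [show (-1 - 1 : ℝ) = -((2 : ℕ) : ℝ) by norm_num, Real.rpow_neg hy0.le, Real.rpow_natCast,
        one_div]
    have e3 : ‖y‖ ^ (-1 - 2 : ℝ) = 1 / ‖y‖ ^ 3 := by
      rw [show (-1 - 2 : ℝ) = -((3 : ℕ) : ℝ) by norm_num, Real.rpow_neg hy0.le, Real.rpow_natCast,
        one_div]
    rw [e1, e2, e3]
    obtain ⟨p0, p1, p2⟩ := hP y hy
    have hpd1 : ∀ k, ∀ z : E, r' < ‖z‖ → pd k (fun z => resc c (gm F K t) z i j) z =
        pd k (if i = j then (fun z => GG K t (c⁻¹ • z)) else fun _ => 0) z := fun k z hz =>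
      pd_congr_set hopen (hEq i j) hz k
    have hpd2 : ∀ k l, pd l (pd k (fun z => resc c (gm F K t) z i j)) y =
        pd l (pd k (if i = j then (fun z => GG K t (c⁻¹ • z)) else fun _ => 0)) y := fun k l =>
      pd_congr_set hopen (fun z hz => hpd1 k z hz) hyr l
    have hv : resc c (gm F K t) y i j = (if i = j then (fun z => GG K t (c⁻¹ • z)) else fun _ => 0) y :=
      hEq i j hyr
    by_cases hij : i = j
    · rw [if_pos hij] at hv
      refine ⟨?_, fun k => ⟨?_, fun l => ?_⟩⟩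
      · rw [hv, hij, Matrix.one_apply_eq]
        refine p0.trans ?_
        calc 30 * (C / ‖y‖) = (30 * C) * (1 / ‖y‖) := by ring
          _ ≤ 1024 * (C + 4 * C ^ 2) * (1 / ‖y‖) :=
            mul_le_mul_of_nonneg_right (by nlinarith [sq_nonneg C]) (by positivity)
      · rw [hpd1 k y hyr, if_pos hij]
        refine (p1 k).trans ?_
        calc 256 * (C / ‖y‖ ^ 2) = (256 * C) * (1 / ‖y‖ ^ 2) := by ring
          _ ≤ 1024 * (C + 4 * C ^ 2) * (1 / ‖y‖ ^ 2) :=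
            mul_le_mul_of_nonneg_right (by nlinarith [sq_nonneg C]) (by positivity)
      · rw [hpd2 k l, if_pos hij]
        refine (p2 k l).trans (le_of_eq ?_)
        ring
    · rw [if_neg hij] at hv
      have hz1 : ∀ k, pd k (fun _ : E => (0 : ℝ)) = fun _ => 0 := fun k => by
        funext z; exact pd_const k 0 z
      refine ⟨?_, fun k => ⟨?_, fun l => ?_⟩⟩
      · rw [hv, Matrix.one_apply_ne hij]
        simp only [sub_zero, abs_zero]
        positivity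
      · rw [hpd1 k y hyr, if_neg hij, hz1]
        simp only [abs_zero]
        positivity
      · rw [hpd2 k l, if_neg hij, hz1, hz1]
        simp only [abs_zero]
        positivity

end

end Pool.Agent.K1H87.MC
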